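import Pool.Agent.H14.CRZ.CIa

/-!
Module CI: upper bound for zeros from squares, without conditions on the boundary.
-/

set_option autoImplicit false

open Complex MeasureTheory Set Filter Topology

namespace Pool.Agent.H14.CRZ

open Pool.Agent.H65.CRZ

lemma subst_unit (g : ℝ → ℝ) (c D : ℝ) :
    (∫ t in c..(c + D), g t) = D * ∫ v in (0 : ℝ)..1, g (c + D * v) := by
  rw [intervalIntegral.mul_integral_comp_add_mul]
  simp

/-- projection to a rectangle -/
noncomputable def cl (a b c d : ℝ) (z : ℂ) : ℂ :=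
  ((max a (min z.re b) : ℝ) : ℂ) + ((max c (min z.im d) : ℝ) : ℂ) * I

lemma cl_re (a b c d : ℝ) (z : ℂ) : (cl a b c d z).re = max a (min z.re b) := by
  unfold cl
  simp

lemma cl_im (a b c d : ℝ) (z : ℂ) : (cl a b c d z).im = max c (min z.im d) := by
  unfold cl
  simp

lemma cl_cont (a b c d : ℝ) : Continuous (cl a b c d) := by
  unfold cl
  fun_prop

lemma cl_eq {a b c d : ℝ} {z : ℂ} (h1 : a ≤ z.re) (h2 : z.re ≤ b) (h3 : c ≤ z.im)
    (h4 : z.im ≤ d) : cl a b c d z = z := by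
  apply Complex.ext
  · rw [cl_re, min_eq_left h2, max_eq_right h1]
  · rw [cl_im, min_eq_left h4, max_eq_right h3]

lemma margin {U : Set ℂ} (hU : IsOpen U) {a b c d : ℝ} (hab : a ≤ b)
    (h : ∀ s : ℂ, a ≤ s.re → s.re ≤ b → c ≤ s.im → s.im ≤ d → s ∈ U) :
    ∃ δ : ℝ, 0 < δ ∧ ∀ s : ℂ, a - δ ≤ s.re → s.re ≤ b → c ≤ s.im → s.im ≤ d → s ∈ U := by
  have hK : IsCompact (Icc a b ×ℂ Icc c d) := isCompact_Icc.reProdIm isCompact_Icc
  have hKU : Icc a b ×ℂ Icc c d ⊆ U := by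
    intro s hs
    rw [Complex.mem_reProdIm] at hs
    exact h s hs.1.1 hs.1.2 hs.2.1 hs.2.2
  obtain ⟨δ, hδ, hsub⟩ := hK.exists_thickening_subset_open hU hKU
  refine ⟨δ / 2, by linarith, fun s h1 h2 h3 h4 => ?_⟩
  rcases le_or_gt a s.re with h5 | h5
  · exact h s h5 h2 h3 h4
  · apply hsub
    rw [Metric.mem_thickening_iff]
    refine ⟨(a : ℂ) + s.im * I, ?_, ?_⟩
    · rw [Complex.mem_reProdIm]
      simp only [add_re, ofReal_re, mul_re, I_re, mul_zero, ofReal_im, I_im, mul_one,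
        sub_self, add_zero, add_im, mul_im, zero_add, mem_Icc]
      exact ⟨⟨le_rfl, hab⟩, h3, h4⟩
    · have e : s - ((a : ℂ) + s.im * I) = ((s.re - a : ℝ) : ℂ) := by
        apply Complex.ext <;> simp
      rw [dist_eq_norm, e, Complex.norm_real, Real.norm_eq_abs, abs_of_neg (by linarith)]
      linarith

theorem pf_CI (h1 : T_CA) : T_CI := by
  intro f a b T₁ D e Q₁ Q₂ U S hab hD hQ₁ hQ₂ hUo hUp hdiff hR hright hS
  have hpi := Real.pi_pos
  obtain ⟨δ, hδ, hR'⟩ := margin hUo hab.le hR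
  -- the zeros in the big rectangle
  have hana : AnalyticOnNhd ℂ f U := by
    apply DifferentiableOn.analyticOnNhd _ hUo
    intro s hs
    exact (hdiff s hs).differentiableWithinAt
  have hs0 : ((b : ℂ) + T₁ * I) ∈ U := hR _ (by simpa using hab.le) (by simp) (by simp)
    (by simpa using hD.le)
  have hne0 : f ((b : ℂ) + T₁ * I) ≠ 0 := (hright T₁ ⟨le_rfl, by linarith⟩).1
  have hcomp : IsCompact (Icc (a - δ) b ×ℂ Icc T₁ (T₁ + D)) :=
    isCompact_Icc.reProdIm isCompact_Icc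
  have hF : {z | z ∈ Icc (a - δ) b ×ℂ Icc T₁ (T₁ + D) ∧ f z = 0}.Finite := by
    apply Pool.Agent.H18.PZ.zeros_finite hUp hana hs0 hne0 hcomp
    intro z hz
    have hz := Complex.mem_reProdIm.1 hz
    exact hR' z hz.1.1 hz.1.2 hz.2.1 hz.2.2
  set F : Set ℂ := {z | z ∈ Icc (a - δ) b ×ℂ Icc T₁ (T₁ + D) ∧ f z = 0} with hFdef
  have hFre : (Complex.re '' F).Finite := hF.image _
  have hFim : (Complex.im '' F).Finite := hF.image _
  -- the filter
  set l1 : Filter ℝ := 𝓝[<] a with hl1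
  set l2 : Filter ℝ := 𝓝[>] T₁ with hl2
  set l3 : Filter ℝ := 𝓝[<] (T₁ + D) with hl3
  set l : Filter (ℝ × ℝ × ℝ) := l1 ×ˢ (l2 ×ˢ l3) with hl
  have t1 : Tendsto (fun p : ℝ × ℝ × ℝ => p.1) l (𝓝 a) := tendsto_fst.mono_right nhdsWithin_le_nhds
  have t2 : Tendsto (fun p : ℝ × ℝ × ℝ => p.2.1) l (𝓝 T₁) :=
    (tendsto_fst.comp tendsto_snd).mono_right nhdsWithin_le_nhds
  have t3 : Tendsto (fun p : ℝ × ℝ × ℝ => p.2.2) l (𝓝 (T₁ + D)) :=
    (tendsto_snd.comp tendsto_snd).mono_right nhdsWithin_le_nhds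
  have tp : Tendsto (fun p : ℝ × ℝ × ℝ => p) l (𝓝 (a, T₁, T₁ + D)) :=
    t1.prodMk_nhds (t2.prodMk_nhds t3)
  have tD : Tendsto (fun p : ℝ × ℝ × ℝ => p.2.2 - p.2.1) l (𝓝 (T₁ + D - T₁)) := t3.sub t2
  have ev1 : ∀ᶠ p : ℝ × ℝ × ℝ in l, a - δ < p.1 ∧ p.1 < a ∧ p.1 ∉ Complex.re '' F := by
    have h1 : ∀ᶠ x in l1, a - δ < x ∧ x < a ∧ x ∉ Complex.re '' F := by
      have h2 : ∀ᶠ x in l1, a - δ < x :=
        nhdsWithin_le_nhds (lt_mem_nhds (by linarith))
      have h3 : ∀ᶠ x in l1, x < a := self_mem_nhdsWithin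
      have h4 : ∀ᶠ x in l1, x ∉ (Complex.re '' F) \ {a} :=
        nhdsWithin_le_nhds ((hFre.subset sdiff_subset).isClosed.isOpen_compl.mem_nhds (by simp))
      filter_upwards [h2, h3, h4] with x h2 h3 h4
      exact ⟨h2, h3, fun h => h4 ⟨h, h3.ne⟩⟩
    exact tendsto_fst.eventually h1
  have ev2 : ∀ᶠ p : ℝ × ℝ × ℝ in l, T₁ < p.2.1 ∧ p.2.1 ∉ Complex.im '' F := by
    have h1 : ∀ᶠ x in l2, T₁ < x ∧ x ∉ Complex.im '' F := by
      have h3 : ∀ᶠ x in l2, T₁ < x := self_mem_nhdsWithin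
      have h4 : ∀ᶠ x in l2, x ∉ (Complex.im '' F) \ {T₁} :=
        nhdsWithin_le_nhds ((hFim.subset sdiff_subset).isClosed.isOpen_compl.mem_nhds (by simp))
      filter_upwards [h3, h4] with x h3 h4
      exact ⟨h3, fun h => h4 ⟨h, h3.ne'⟩⟩
    exact (tendsto_fst.comp tendsto_snd).eventually h1
  have ev3 : ∀ᶠ p : ℝ × ℝ × ℝ in l, p.2.2 < T₁ + D ∧ p.2.2 ∉ Complex.im '' F := by
    have h1 : ∀ᶠ x in l3, x < T₁ + D ∧ x ∉ Complex.im '' F := by
      have h3 : ∀ᶠ x in l3, x < T₁ + D := self_mem_nhdsWithin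
      have h4 : ∀ᶠ x in l3, x ∉ (Complex.im '' F) \ {T₁ + D} :=
        nhdsWithin_le_nhds ((hFim.subset sdiff_subset).isClosed.isOpen_compl.mem_nhds (by simp))
      filter_upwards [h3, h4] with x h3 h4
      exact ⟨h3, fun h => h4 ⟨h, h3.ne⟩⟩
    exact (tendsto_snd.comp tendsto_snd).eventually h1
  have ev4 : ∀ᶠ p : ℝ × ℝ × ℝ in l, 0 < p.2.2 - p.2.1 := tD.eventually (lt_mem_nhds (by linarith))
  have ev5 : ∀ᶠ p : ℝ × ℝ × ℝ in l, ∀ ρ ∈ S, p.2.1 < ρ.im ∧ ρ.im < p.2.2 := by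
    rw [Filter.eventually_all_finset]
    intro ρ hρ
    exact (t2.eventually (gt_mem_nhds (hS ρ hρ).2.2.1)).and
      (t3.eventually (lt_mem_nhds (hS ρ hρ).2.2.2))
  -- the extended function
  set g : ℂ → ℂ := fun z => f (cl (a - δ) b T₁ (T₁ + D) z) with hg
  have hgc : Continuous g := by
    have h2 : ∀ z, ContinuousAt g z := by
      intro z
      have h3 : ContinuousAt f (cl (a - δ) b T₁ (T₁ + D) z) := by
        apply (hdiff _ (hR' _ _ _ _ _)).continuousAt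
        · rw [cl_re]
          exact le_max_left _ _
        · rw [cl_re]
          exact max_le (by linarith) (min_le_right _ _)
        · rw [cl_im]
          exact le_max_left _ _
        · rw [cl_im]
          exact max_le (by linarith) (min_le_right _ _)
      exact h3.comp (cl_cont _ _ _ _).continuousAt
    exact continuous_iff_continuousAt.2 h2
  have hgf : ∀ x y : ℝ, a - δ ≤ x → x ≤ b → T₁ ≤ y → y ≤ T₁ + D →
      f ((x : ℂ) + (y : ℂ) * I) = g ((x : ℂ) + (y : ℂ) * I) := by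
    intro x y h2 h3 h4 h5
    simp only [hg]
    rw [cl_eq (by simpa using h2) (by simpa using h3) (by simpa using h4) (by simpa using h5)]
  -- the two sides
  set LS : ℝ × ℝ × ℝ → ℝ := fun p => 2 * Real.pi * ∑ ρ ∈ S, (analyticOrderNatAt f ρ : ℝ) *
    ((p.2.2 - p.2.1) / Real.pi * Real.sinh (Real.pi * (ρ.re - p.1) / (p.2.2 - p.2.1))) *
      Real.sin (Real.pi * (ρ.im - p.2.1) / (p.2.2 - p.2.1)) with hLS
  set H1 : ℝ × ℝ × ℝ → ℝ := fun p => ∫ v in (0 : ℝ)..1,
    (‖g ((p.1 : ℂ) + ((p.2.1 + (p.2.2 - p.2.1) * v : ℝ) : ℂ) * I)‖ ^ 2 / Q₁ - 1 + Real.log Q₁) *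
      Real.sin (Real.pi * v) with hH1
  set H2 : (ℝ × ℝ × ℝ) × ℝ → ℝ := fun q => ∫ v in (0 : ℝ)..1,
    (‖g (((q.1.1 + (b - q.1.1) * v : ℝ) : ℂ) + (q.1.2.1 : ℂ) * I)‖ ^ 2 / Q₂ +
      ‖g (((q.1.1 + (b - q.1.1) * v : ℝ) : ℂ) + (q.1.2.2 : ℂ) * I)‖ ^ 2 / Q₂ - 2 +
        2 * Real.log Q₂) * Real.sinh (Real.pi * q.2 * v) with hH2
  have cH1 : Continuous H1 := by
    apply intervalIntegral.continuous_parametric_intervalIntegral_of_continuous'
    unfold Function.uncurry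
    fun_prop
  have cH2 : Continuous H2 := by
    apply intervalIntegral.continuous_parametric_intervalIntegral_of_continuous'
    unfold Function.uncurry
    fun_prop
  set RS : ℝ × ℝ × ℝ → ℝ := fun p => 1 / 2 * ((p.2.2 - p.2.1) * H1 p) +
    1 / 2 * ((b - p.1) * H2 (p, (b - p.1) / (p.2.2 - p.2.1))) +
      ((p.2.2 - p.2.1) + 2) * (p.2.2 - p.2.1) *
        Real.cosh (Real.pi * (b - p.1) / (p.2.2 - p.2.1)) * e with hRS
  have hRSe : ∀ p : ℝ × ℝ × ℝ, a - δ ≤ p.1 → p.1 < b → T₁ ≤ p.2.1 → 0 < p.2.2 - p.2.1 →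
      p.2.2 ≤ T₁ + D →
      1 / 2 * (∫ t in p.2.1..(p.2.1 + (p.2.2 - p.2.1)), (‖f (p.1 + t * I)‖ ^ 2 / Q₁ - 1 +
          Real.log Q₁) * Real.sin (Real.pi * (t - p.2.1) / (p.2.2 - p.2.1))) +
        1 / 2 * (∫ x in p.1..b, (‖f (x + p.2.1 * I)‖ ^ 2 / Q₂ +
          ‖f (x + ((p.2.1 + (p.2.2 - p.2.1) : ℝ) : ℂ) * I)‖ ^ 2 / Q₂ - 2 + 2 * Real.log Q₂) *
            Real.sinh (Real.pi * (x - p.1) / (p.2.2 - p.2.1))) +
        ((p.2.2 - p.2.1) + 2) * (p.2.2 - p.2.1) *
          Real.cosh (Real.pi * (b - p.1) / (p.2.2 - p.2.1)) * e = RS p := by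
    intro p h2 h3 h4 h5 h6
    have e1 : (∫ t in p.2.1..(p.2.1 + (p.2.2 - p.2.1)), (‖f (p.1 + t * I)‖ ^ 2 / Q₁ - 1 +
          Real.log Q₁) * Real.sin (Real.pi * (t - p.2.1) / (p.2.2 - p.2.1))) =
        (p.2.2 - p.2.1) * H1 p := by
      rw [subst_unit, hH1]
      congr 1
      apply intervalIntegral.integral_congr
      intro v hv
      rw [uIcc_of_le zero_le_one] at hv
      have hv0 : 0 ≤ (p.2.2 - p.2.1) * v := mul_nonneg h5.le hv.1
      have hv1 : (p.2.2 - p.2.1) * v ≤ (p.2.2 - p.2.1) := by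
        have := mul_le_mul_of_nonneg_left hv.2 h5.le
        linarith
      simp only
      rw [hgf p.1 (p.2.1 + (p.2.2 - p.2.1) * v) h2 h3.le (by linarith) (by linarith),
        show Real.pi * (p.2.1 + (p.2.2 - p.2.1) * v - p.2.1) / (p.2.2 - p.2.1) = Real.pi * v by
          field_simp; ring]
    have e2 : (∫ x in p.1..b, (‖f (x + p.2.1 * I)‖ ^ 2 / Q₂ +
          ‖f (x + ((p.2.1 + (p.2.2 - p.2.1) : ℝ) : ℂ) * I)‖ ^ 2 / Q₂ - 2 + 2 * Real.log Q₂) *
            Real.sinh (Real.pi * (x - p.1) / (p.2.2 - p.2.1))) =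
        (b - p.1) * H2 (p, (b - p.1) / (p.2.2 - p.2.1)) := by
      have h7 := subst_unit (fun x : ℝ => (‖f (x + p.2.1 * I)‖ ^ 2 / Q₂ +
          ‖f (x + ((p.2.1 + (p.2.2 - p.2.1) : ℝ) : ℂ) * I)‖ ^ 2 / Q₂ - 2 + 2 * Real.log Q₂) *
            Real.sinh (Real.pi * (x - p.1) / (p.2.2 - p.2.1))) p.1 (b - p.1)
      have hb : p.1 + (b - p.1) = b := by ring
      rw [hb] at h7
      rw [h7, hH2]
      congr 1
      apply intervalIntegral.integral_congr
      intro v hv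
      rw [uIcc_of_le zero_le_one] at hv
      have hv0 : 0 ≤ (b - p.1) * v := mul_nonneg (by linarith) hv.1
      have hv1 : (b - p.1) * v ≤ (b - p.1) := by
        have := mul_le_mul_of_nonneg_left hv.2 (show 0 ≤ b - p.1 by linarith)
        linarith
      simp only
      rw [hgf (p.1 + (b - p.1) * v) p.2.1 (by linarith) (by linarith) h4 (by linarith),
        hgf (p.1 + (b - p.1) * v) (p.2.1 + (p.2.2 - p.2.1)) (by linarith) (by linarith)
          (by linarith) (by linarith),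
        show Real.pi * (p.1 + (b - p.1) * v - p.1) / (p.2.2 - p.2.1) =
          Real.pi * ((b - p.1) / (p.2.2 - p.2.1)) * v by ring]
      rw [show p.2.1 + (p.2.2 - p.2.1) = p.2.2 by ring]
    rw [e1, e2]
  have hineq : ∀ᶠ p : ℝ × ℝ × ℝ in l, LS p ≤ RS p := by
    filter_upwards [ev1, ev2, ev3, ev4, ev5] with p h2 h3 h4 h5 h6
    have hadd : p.2.1 + (p.2.2 - p.2.1) = p.2.2 := by ring
    have key := ci_aux h1 (f := f) (a := p.1) (b := b) (T₁ := p.2.1) (D := p.2.2 - p.2.1)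
      (e := e) (U := U) (h2.2.1.trans hab) h5 hQ₁ hQ₂ hUo hUp hdiff
      (by
        intro s g1 g2 g3 g4
        exact hR' s (h2.1.le.trans g1) g2 (h3.1.le.trans g3) (by linarith [h4.1]))
      (by
        intro t ht h0
        rw [hadd] at ht
        refine h2.2.2 ⟨(p.1 : ℂ) + t * I, ⟨?_, h0⟩, by simp⟩
        rw [Complex.mem_reProdIm]
        simp only [add_re, ofReal_re, mul_re, I_re, mul_zero, ofReal_im, I_im, mul_one,
            sub_self, add_zero, add_im, mul_im, zero_add, mem_Icc]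
        exact ⟨⟨h2.1.le, by linarith [h2.2.1]⟩, by linarith [ht.1, h3.1],
          by linarith [ht.2, h4.1]⟩)
      (by
        intro x hx
        rw [hadd]
        constructor
        · intro h0
          refine h3.2 ⟨(x : ℂ) + p.2.1 * I, ⟨?_, h0⟩, by simp⟩
          rw [Complex.mem_reProdIm]
          simp only [add_re, ofReal_re, mul_re, I_re, mul_zero, ofReal_im, I_im, mul_one,
              sub_self, add_zero, add_im, mul_im, zero_add, mem_Icc]
          exact ⟨⟨by linarith [h2.1, hx.1], hx.2⟩, by linarith [h3.1], by linarith [h4.1]⟩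
        · intro h0
          refine h4.2 ⟨(x : ℂ) + p.2.2 * I, ⟨?_, h0⟩, by simp⟩
          rw [Complex.mem_reProdIm]
          simp only [add_re, ofReal_re, mul_re, I_re, mul_zero, ofReal_im, I_im, mul_one,
              sub_self, add_zero, add_im, mul_im, zero_add, mem_Icc]
          exact ⟨⟨by linarith [h2.1, hx.1], hx.2⟩, by linarith [h3.1], by linarith [h4.1]⟩)
      (by
        intro t ht
        rw [hadd] at ht
        exact hright t ⟨h3.1.le.trans ht.1, ht.2.trans h4.1.le⟩)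
      S
      (by
        intro ρ hρ
        rw [hadd]
        exact ⟨lt_of_lt_of_le h2.2.1 (hS ρ hρ).1, (hS ρ hρ).2.1, (h6 ρ hρ).1, (h6 ρ hρ).2⟩)
    rw [hRSe p h2.1.le (h2.2.1.trans hab) h3.1.le h5 h4.1.le] at key
    exact key
  -- the limits
  have hD0 : (T₁ + D - T₁ : ℝ) ≠ 0 := by
    intro h
    linarith
  have tL : Tendsto LS l (𝓝 (LS (a, T₁, T₁ + D))) := by
    rw [hLS]
    apply Tendsto.const_mul
    apply tendsto_finsetSum
    intro ρ _
    apply Tendsto.mul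
    · apply Tendsto.const_mul
      apply Tendsto.mul
      · exact tD.div_const _
      · apply (Real.continuous_sinh.tendsto _).comp
        apply Tendsto.div _ tD hD0
        apply Tendsto.const_mul
        exact tendsto_const_nhds.sub t1
    · apply (Real.continuous_sin.tendsto _).comp
      apply Tendsto.div _ tD hD0
      apply Tendsto.const_mul
      exact tendsto_const_nhds.sub t2
  have tba : Tendsto (fun p : ℝ × ℝ × ℝ => b - p.1) l (𝓝 (b - a)) := tendsto_const_nhds.sub t1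
  have tH1 : Tendsto H1 l (𝓝 (H1 (a, T₁, T₁ + D))) := (cH1.tendsto _).comp tp
  have tH2 : Tendsto (fun p : ℝ × ℝ × ℝ => H2 (p, (b - p.1) / (p.2.2 - p.2.1))) l
      (𝓝 (H2 ((a, T₁, T₁ + D), (b - a) / (T₁ + D - T₁)))) :=
    (cH2.tendsto _).comp (tp.prodMk_nhds (tba.div tD hD0))
  have tR : Tendsto RS l (𝓝 (RS (a, T₁, T₁ + D))) := by
    rw [hRS]
    apply Tendsto.add
    · apply Tendsto.add
      · exact (tD.mul tH1).const_mul _
      · exact (tba.mul tH2).const_mul _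
    · apply Tendsto.mul_const
      apply Tendsto.mul
      · exact (tD.add_const 2).mul tD
      · apply (Real.continuous_cosh.tendsto _).comp
        exact (tba.const_mul _).div tD hD0
  have : l.NeBot := by
    rw [hl]
    infer_instance
  have hfin := le_of_tendsto_of_tendsto tL tR hineq
  rw [← hRSe (a, T₁, T₁ + D) (by simp only; linarith) hab le_rfl (by simp only; linarith)
    le_rfl] at hfin
  have hDD : T₁ + D - T₁ = D := by ring
  simp only [hLS, hDD] at hfin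
  refine le_trans (le_of_eq ?_) hfin
  rw [Finset.mul_sum, Finset.mul_sum]
  refine Finset.sum_congr rfl fun ρ _ => ?_
  field_simp

end Pool.Agent.H14.CRZ
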