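import Pool.Agent.H65.CRZ.TL
import Pool.Agent.H18.PZ.Fac

/-!
Module CI: upper bound for zeros from squares, the case without zeros on the boundary.
-/

set_option autoImplicit false

open Complex MeasureTheory Set Filter Topology

namespace Pool.Agent.H14.CRZ

open Pool.Agent.H65.CRZ

lemma sin_nn {T₁ D y : ℝ} (hD : 0 < D) (h3 : T₁ ≤ y) (h4 : y ≤ T₁ + D) :
    0 ≤ Real.sin (Real.pi * (y - T₁) / D) := by
  have hpi := Real.pi_pos
  apply Real.sin_nonneg_of_nonneg_of_le_pi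
  · have : 0 ≤ y - T₁ := by linarith
    positivity
  · rw [div_le_iff₀ hD]
    nlinarith

lemma sinh_nn {a D x : ℝ} (hD : 0 < D) (h3 : a ≤ x) : 0 ≤ Real.sinh (Real.pi * (x - a) / D) := by
  have hpi := Real.pi_pos
  rw [Real.sinh_nonneg_iff]
  have : 0 ≤ x - a := by linarith
  positivity

lemma log_sq {r Q : ℝ} (hr : 0 < r) (hQ : 0 < Q) :
    Real.log r ≤ 1 / 2 * (r ^ 2 / Q - 1 + Real.log Q) := by
  have h6 := Real.log_le_sub_one_of_pos (show 0 < r ^ 2 / Q by positivity)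
  rw [Real.log_div (by positivity) hQ.ne', Real.log_pow] at h6
  push_cast at h6
  linarith

lemma ci_aux (hCA : T_CA) {f : ℂ → ℂ} {a b T₁ D e Q₁ Q₂ : ℝ} {U : Set ℂ} (hab : a < b)
    (hD : 0 < D) (hQ₁ : 0 < Q₁) (hQ₂ : 0 < Q₂) (hUo : IsOpen U) (hUp : IsPreconnected U)
    (hdiff : ∀ s ∈ U, DifferentiableAt ℂ f s)
    (hR : ∀ s : ℂ, a ≤ s.re → s.re ≤ b → T₁ ≤ s.im → s.im ≤ T₁ + D → s ∈ U)
    (hleft : ∀ t ∈ Icc T₁ (T₁ + D), f (a + t * I) ≠ 0)
    (hhor : ∀ x ∈ Icc a b, f (x + T₁ * I) ≠ 0 ∧ f (x + ((T₁ + D : ℝ) : ℂ) * I) ≠ 0)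
    (hright : ∀ t ∈ Icc T₁ (T₁ + D), f (b + t * I) ≠ 0 ∧ |Real.log ‖f (b + t * I)‖| ≤ e ∧
      ‖deriv f (b + t * I)‖ ≤ e * ‖f (b + t * I)‖)
    (S : Finset ℂ) (hS : ∀ ρ ∈ S, a < ρ.re ∧ ρ.re < b ∧ T₁ < ρ.im ∧ ρ.im < T₁ + D) :
    2 * Real.pi * ∑ ρ ∈ S, (analyticOrderNatAt f ρ : ℝ) *
        (D / Real.pi * Real.sinh (Real.pi * (ρ.re - a) / D)) *
          Real.sin (Real.pi * (ρ.im - T₁) / D) ≤
      1 / 2 * (∫ t in T₁..(T₁ + D), (‖f (a + t * I)‖ ^ 2 / Q₁ - 1 + Real.log Q₁) *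
          Real.sin (Real.pi * (t - T₁) / D)) +
        1 / 2 * (∫ x in a..b, (‖f (x + T₁ * I)‖ ^ 2 / Q₂ +
          ‖f (x + ((T₁ + D : ℝ) : ℂ) * I)‖ ^ 2 / Q₂ - 2 + 2 * Real.log Q₂) *
            Real.sinh (Real.pi * (x - a) / D)) +
        (D + 2) * D * Real.cosh (Real.pi * (b - a) / D) * e := by
  classical
  have hpi := Real.pi_pos
  have hDD : T₁ + D - T₁ = D := by ring
  obtain ⟨Z, hZ, hmain⟩ := hCA f a b T₁ (T₁ + D) e U hab (by linarith) hUo hUp hdiff hR hleft
    hhor hright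
  rw [hDD] at hmain
  -- comparison of the sums
  have hsum : ∑ ρ ∈ S, (analyticOrderNatAt f ρ : ℝ) * (D / Real.pi * Real.sinh (Real.pi *
        (ρ.re - a) / D)) * Real.sin (Real.pi * (ρ.im - T₁) / D) ≤
      ∑ z ∈ Z, (analyticOrderNatAt f z : ℝ) * (D / Real.pi * Real.sinh (Real.pi *
        (z.re - a) / D)) * Real.sin (Real.pi * (z.im - T₁) / D) := by
    have s1 : ∑ ρ ∈ S, (analyticOrderNatAt f ρ : ℝ) * (D / Real.pi * Real.sinh (Real.pi *
        (ρ.re - a) / D)) * Real.sin (Real.pi * (ρ.im - T₁) / D) =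
        ∑ ρ ∈ S.filter (fun ρ => ρ ∈ Z), (analyticOrderNatAt f ρ : ℝ) *
        (D / Real.pi * Real.sinh (Real.pi * (ρ.re - a) / D)) *
          Real.sin (Real.pi * (ρ.im - T₁) / D) := by
      symm
      apply Finset.sum_subset (Finset.filter_subset _ _)
      intro ρ hρ hρ2
      obtain ⟨h3, h4, h5, h6⟩ := hS ρ hρ
      have hnotZ : ρ ∉ Z := fun h => hρ2 (Finset.mem_filter.2 ⟨hρ, h⟩)
      have hf0 : f ρ ≠ 0 := fun h => hnotZ ((hZ ρ).2 ⟨h3, h4, h5, h6, h⟩)
      have h7 : analyticOrderNatAt f ρ = 0 := by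
        unfold analyticOrderNatAt
        rw [analyticOrderAt_eq_zero.2 (Or.inr hf0)]
        rfl
      rw [h7]
      simp
    rw [s1]
    apply Finset.sum_le_sum_of_subset_of_nonneg
    · intro z hz
      exact (Finset.mem_filter.1 hz).2
    · intro z hz _
      obtain ⟨h3, h4, h5, h6, _⟩ := (hZ z).1 hz
      have h8 := sin_nn hD h5.le h6.le
      have h9 := sinh_nn (a := a) hD h3.le
      positivity
  -- continuity
  have hcont : ∀ s ∈ U, ContinuousAt f s := fun s hs => (hdiff s hs).continuousAt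
  have cleft : ContinuousOn (fun t : ℝ => f (a + t * I)) (Icc T₁ (T₁ + D)) := by
    intro t ht
    have h3 : ContinuousAt f ((a : ℂ) + t * I) :=
      hcont _ (hR _ (by simp) (by simpa using hab.le) (by simpa using ht.1)
        (by simpa using ht.2))
    exact (h3.comp (f := fun t : ℝ => (a : ℂ) + t * I) (by fun_prop)).continuousWithinAt
  have chor : ∀ y : ℝ, T₁ ≤ y → y ≤ T₁ + D →
      ContinuousOn (fun x : ℝ => f (x + y * I)) (Icc a b) := by
    intro y hy hy2 x hx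
    have h3 : ContinuousAt f ((x : ℂ) + y * I) :=
      hcont _ (hR _ (by simpa using hx.1) (by simpa using hx.2) (by simpa using hy)
        (by simpa using hy2))
    exact (h3.comp (f := fun x : ℝ => (x : ℂ) + y * I) (by fun_prop)).continuousWithinAt
  -- left integral
  have hle1 : T₁ ≤ T₁ + D := by linarith
  have e1 : (∫ t in T₁..(T₁ + D), Real.log ‖f (a + t * I)‖ *
      Real.sin (Real.pi * (t - T₁) / D)) ≤
      1 / 2 * (∫ t in T₁..(T₁ + D), (‖f (a + t * I)‖ ^ 2 / Q₁ - 1 + Real.log Q₁) *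
          Real.sin (Real.pi * (t - T₁) / D)) := by
    have csin : Continuous fun t : ℝ => Real.sin (Real.pi * (t - T₁) / D) := by fun_prop
    rw [← intervalIntegral.integral_const_mul]
    apply intervalIntegral.integral_mono_on hle1
    · apply ContinuousOn.intervalIntegrable
      rw [uIcc_of_le hle1]
      exact (cleft.norm.log fun t ht => norm_ne_zero_iff.2 (hleft t ht)).mul csin.continuousOn
    · apply ContinuousOn.intervalIntegrable
      rw [uIcc_of_le hle1]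
      exact continuousOn_const.mul (((((cleft.norm.pow 2).div_const _).sub
        continuousOn_const).add continuousOn_const).mul csin.continuousOn)
    · intro t ht
      have h3 := sin_nn hD ht.1 ht.2
      have h5 := log_sq (norm_pos_iff.2 (hleft t ht)) hQ₁
      calc Real.log ‖f (a + t * I)‖ * Real.sin (Real.pi * (t - T₁) / D)
          ≤ (1 / 2 * (‖f (a + t * I)‖ ^ 2 / Q₁ - 1 + Real.log Q₁)) *
            Real.sin (Real.pi * (t - T₁) / D) := by gcongr
        _ = _ := by ring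
  -- horizontal integral
  have e3 : (∫ x in a..b, (Real.log ‖f (x + T₁ * I)‖ +
      Real.log ‖f (x + ((T₁ + D : ℝ) : ℂ) * I)‖) * Real.sinh (Real.pi * (x - a) / D)) ≤
      1 / 2 * (∫ x in a..b, (‖f (x + T₁ * I)‖ ^ 2 / Q₂ +
          ‖f (x + ((T₁ + D : ℝ) : ℂ) * I)‖ ^ 2 / Q₂ - 2 + 2 * Real.log Q₂) *
            Real.sinh (Real.pi * (x - a) / D)) := by
    have csinh : Continuous fun x : ℝ => Real.sinh (Real.pi * (x - a) / D) := by fun_prop
    have c1 := chor T₁ le_rfl hle1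
    have c2 := chor (T₁ + D) hle1 le_rfl
    rw [← intervalIntegral.integral_const_mul]
    apply intervalIntegral.integral_mono_on hab.le
    · apply ContinuousOn.intervalIntegrable
      rw [uIcc_of_le hab.le]
      apply ContinuousOn.mul
      · exact (c1.norm.log fun x hx => norm_ne_zero_iff.2 (hhor x hx).1).add
          (c2.norm.log fun x hx => norm_ne_zero_iff.2 (hhor x hx).2)
      · exact csinh.continuousOn
    · apply ContinuousOn.intervalIntegrable
      rw [uIcc_of_le hab.le]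
      exact continuousOn_const.mul ((((((c1.norm.pow 2).div_const _).add
        ((c2.norm.pow 2).div_const _)).sub continuousOn_const).add continuousOn_const).mul
          csinh.continuousOn)
    · intro x hx
      have h3 := log_sq (norm_pos_iff.2 (hhor x hx).1) hQ₂
      have h4 := log_sq (norm_pos_iff.2 (hhor x hx).2) hQ₂
      have h5 := sinh_nn (a := a) hD hx.1
      calc (Real.log ‖f (x + T₁ * I)‖ + Real.log ‖f (x + ((T₁ + D : ℝ) : ℂ) * I)‖) *
            Real.sinh (Real.pi * (x - a) / D)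
          ≤ (1 / 2 * (‖f (x + T₁ * I)‖ ^ 2 / Q₂ - 1 + Real.log Q₂) +
            1 / 2 * (‖f (x + ((T₁ + D : ℝ) : ℂ) * I)‖ ^ 2 / Q₂ - 1 + Real.log Q₂)) *
              Real.sinh (Real.pi * (x - a) / D) := by gcongr
        _ = _ := by ring
  have h7 := (abs_le.1 hmain).2
  have h8 : 2 * Real.pi * ∑ ρ ∈ S, (analyticOrderNatAt f ρ : ℝ) * (D / Real.pi *
        Real.sinh (Real.pi * (ρ.re - a) / D)) * Real.sin (Real.pi * (ρ.im - T₁) / D) ≤
      2 * Real.pi * ∑ z ∈ Z, (analyticOrderNatAt f z : ℝ) * (D / Real.pi * Real.sinh (Real.pi *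
        (z.re - a) / D)) * Real.sin (Real.pi * (z.im - T₁) / D) := by gcongr
  linarith

end Pool.Agent.H14.CRZ
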